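import Pool.Agent.K1H80.KA.Stm

/-!
# Base change of linear independence of the rows
-/

set_option autoImplicit false

open MvPolynomial Pool.Agent.KA

namespace Pool.Agent.K1H52.KA

lemma bc_lin {L L' : Type*} [Field L] [Field L'] (φ : L →+* L') {ι σ : Type*} [Fintype ι]
    [Fintype σ] (v : ι → σ → L) (h : LinearIndependent L v) :
    LinearIndependent L' (fun (i : ι) (s : σ) => φ (v i s)) := by
  classical
  have hinj : Function.Injective (Fintype.linearCombination L v) := by
    rw [← LinearMap.ker_eq_bot]
    rw [LinearMap.ker_eq_bot']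
    intro c hc
    rw [Fintype.linearIndependent_iff] at h
    funext i
    exact h c (by rwa [Fintype.linearCombination_apply] at hc) i
  obtain ⟨g, hg⟩ := LinearMap.exists_leftInverse_of_injective (Fintype.linearCombination L v)
    (LinearMap.ker_eq_bot.2 hinj)
  have h1 : ∀ i i' : ι, ∑ s, v i s * g (Pi.single s 1) i' = if i = i' then 1 else 0 := by
    intro i i'
    have h2 : g (v i) = Pi.single i 1 := by
      have h3 := LinearMap.congr_fun hg (Pi.single i 1)
      have h4 : Fintype.linearCombination L v (Pi.single i 1) = v i := by
        rw [Fintype.linearCombination_apply_single, one_smul]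
      rw [LinearMap.comp_apply, h4] at h3
      exact h3
    have h5 : v i = ∑ s, v i s • (Pi.single s (1 : L) : σ → L) := by
      funext t
      simp [Finset.sum_apply, Pi.single_apply]
    have h6 : g (v i) = ∑ s, v i s • g (Pi.single s (1 : L)) := by
      conv_lhs => rw [h5]
      rw [map_sum]
      simp only [map_smul]
    have h7 := congrFun h6 i'
    rw [h2] at h7
    simp only [Finset.sum_apply, Pi.smul_apply, smul_eq_mul] at h7
    rw [← h7, Pi.single_apply]
    simp only [eq_comm]
  rw [Fintype.linearIndependent_iff]
  intro c hc i'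
  have h8 : ∀ i i' : ι, ∑ s, φ (v i s) * φ (g (Pi.single s 1) i') = if i = i' then 1 else 0 := by
    intro i i'
    have := congrArg φ (h1 i i')
    rw [map_sum] at this
    simp only [map_mul] at this
    rw [this]
    split_ifs <;> simp
  have h9 : ∑ s, (∑ i, c i * φ (v i s)) * φ (g (Pi.single s 1) i') = c i' := by
    simp only [Finset.sum_mul]
    rw [Finset.sum_comm]
    have : ∀ i, ∑ s, c i * φ (v i s) * φ (g (Pi.single s 1) i') = if i = i' then c i else 0 := by
      intro i
      simp only [mul_assoc]
      rw [← Finset.mul_sum, h8]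
      split_ifs <;> simp
    simp only [this]
    simp
  rw [← h9]
  apply Finset.sum_eq_zero
  intro s _
  have h10 := congrFun hc s
  simp only [Finset.sum_apply, Pi.smul_apply, smul_eq_mul, Pi.zero_apply] at h10
  rw [h10, zero_mul]

theorem bc : BCStm := by
  intro K K' _ _ _ n ι _ a b hab h
  have hinj : Function.Injective
      (MvPolynomial.map (algebraMap K K') : MvPolynomial (Fin n × Fin 2) K →+*
        MvPolynomial (Fin n × Fin 2) K') :=
    MvPolynomial.map_injective _ (algebraMap K K').injective
  let φ : LL K n →+* LL K' n := IsFractionRing.map (K := LL K n) (L := LL K' n) hinj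
  have hφ : ∀ x : MvPolynomial (Fin n × Fin 2) K,
      φ (algebraMap (MvPolynomial (Fin n × Fin 2) K) (LL K n) x) =
      algebraMap (MvPolynomial (Fin n × Fin 2) K') (LL K' n) (MvPolynomial.map (algebraMap K K') x) := by
    intro x
    exact IsLocalization.map_eq _ x
  have hvec : ∀ (k : Fin n) (t : Fin 2), φ (vec K n k t) = vec K' n k t := by
    intro k t
    unfold vec
    rw [hφ, MvPolynomial.map_X]
  have hrow : ∀ (p : Fin n × Fin n) (q : Fin n × Fin 2), φ (row K n p q) = row K' n p q := by
    intro p q
    unfold row
    split_ifs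
    · exact hvec _ _
    · rw [map_neg, hvec]
    · exact map_zero _
  have h2 := bc_lin φ _ h
  have e : (fun (e : ι) => row K' n (a e, b e)) =
      fun (e : ι) (s : Fin n × Fin 2) => φ (row K n (a e, b e) s) := by
    funext e s
    rw [hrow]
  rw [e]
  exact h2

end Pool.Agent.K1H52.KA
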