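import Pool.Agent.K1H80.KA.StmT

/-!
# The base case: a triangle times an odd cycle
-/

set_option autoImplicit false

open Pool.Agent.KA

namespace Pool.Agent.K1H52.KA

lemma cramer3 {L : Type} [Field L] (p q r P Q R : Fin 3 → L)
    (h1 : ∀ i j, i ≠ j → P i * q j + p i * Q j - Q i * p j - q i * P j = 0)
    (h2 : ∀ i j, i ≠ j → Q i * r j + q i * R j - R i * q j - r i * Q j = 0)
    (hD : (p 0 * (q 1 * r 2 - q 2 * r 1) - p 1 * (q 0 * r 2 - q 2 * r 0) +
      p 2 * (q 0 * r 1 - q 1 * r 0)) ≠ 0) :
    ∃ α : L, ∀ s, Q s = α * q s := by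
  have a12 := h1 1 2 (by decide)
  have a20 := h1 2 0 (by decide)
  have a01 := h1 0 1 (by decide)
  have b12 := h2 1 2 (by decide)
  have b20 := h2 2 0 (by decide)
  have b01 := h2 0 1 (by decide)
  have d1 : q 0 * (p 1 * Q 2 - p 2 * Q 1) + q 1 * (p 2 * Q 0 - p 0 * Q 2) +
      q 2 * (p 0 * Q 1 - p 1 * Q 0) = 0 := by
    linear_combination q 0 * a12 + q 1 * a20 + q 2 * a01
  have d2 : q 0 * (Q 1 * r 2 - Q 2 * r 1) + q 1 * (Q 2 * r 0 - Q 0 * r 2) +
      q 2 * (Q 0 * r 1 - Q 1 * r 0) = 0 := by
    linear_combination q 0 * b12 + q 1 * b20 + q 2 * b01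
  set D := (p 0 * (q 1 * r 2 - q 2 * r 1) - p 1 * (q 0 * r 2 - q 2 * r 0) +
      p 2 * (q 0 * r 1 - q 1 * r 0)) with hDdef
  set E := (p 0 * (Q 1 * r 2 - Q 2 * r 1) - p 1 * (Q 0 * r 2 - Q 2 * r 0) +
      p 2 * (Q 0 * r 1 - Q 1 * r 0)) with hEdef
  have key : ∀ s, D * Q s = E * q s := by
    intro s
    fin_cases s
    · simp only [hDdef, hEdef, Fin.zero_eta, Fin.isValue]
      linear_combination (-p 0) * d2 - r 0 * d1
    · simp only [hDdef, hEdef, Fin.mk_one, Fin.isValue]
      linear_combination (-p 1) * d2 - r 1 * d1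
    · simp only [hDdef, hEdef, Fin.reduceFinMk, Fin.isValue]
      linear_combination (-p 2) * d2 - r 2 * d1
  refine ⟨E / D, fun s => ?_⟩
  rw [div_mul_eq_mul_div, eq_div_iff hD, mul_comm, key]

theorem baselin : BASELINStm := by
  intro V W L _ G H x h20 hx u hu a ha m c hodd hc hcH
  have hainj : Function.Injective a := by
    intro s t hst
    by_contra hne
    have := ha s t hne
    rw [hst] at this
    exact G.loopless.irrefl _ this
  have h1 : (1 : Fin (m + 3)) ≠ 0 := by
    intro h
    have := congrArg Fin.val h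
    simp at this
  have h2 : (1 : Fin (m + 3)) + 1 ≠ 0 := by
    intro h
    have := congrArg Fin.val h
    rw [Fin.val_add] at this
    simp only [Fin.val_one, Fin.val_zero] at this
    rw [Nat.mod_eq_of_lt (by omega)] at this
    omega
  have hα : ∀ t : Fin (m + 3), ∃ α : L, ∀ s, u (a s) (c t) = α * x (a s) (c t) := by
    intro t'
    obtain ⟨t, rfl⟩ : ∃ t, t' = t + 1 := ⟨t' - 1, by rw [sub_add_cancel]⟩
    apply cramer3 (fun s => x (a s) (c t)) (fun s => x (a s) (c (t + 1)))
      (fun s => x (a s) (c (t + 1 + 1))) (fun s => u (a s) (c t)) (fun s => u (a s) (c (t + 1)))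
      (fun s => u (a s) (c (t + 1 + 1)))
    · intro i j hij
      have := hu (a i) (a j) (c t) (c (t + 1)) (ha i j hij) (hcH t)
      linear_combination this
    · intro i j hij
      have := hu (a i) (a j) (c (t + 1)) (c (t + 1 + 1)) (ha i j hij) (hcH (t + 1))
      linear_combination this
    · have hb : Function.Injective ![c t, c (t + 1), c (t + 1 + 1)] := by
        have n1 : c t ≠ c (t + 1) := fun h => h1 (by simpa using (hc h).symm)
        have n2 : c (t + 1) ≠ c (t + 1 + 1) := fun h => h1 (by simpa using (hc h).symm)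
        have n3 : c t ≠ c (t + 1 + 1) := fun h => h2 (by
          have := (hc h).symm
          rw [add_assoc] at this
          simpa using this)
        intro i j hij
        fin_cases i <;> fin_cases j <;> simp_all
      have h3 := hx.three a ![c t, c (t + 1), c (t + 1 + 1)] hainj hb
      rw [Matrix.det_fin_three] at h3
      simp only [Matrix.of_apply, Matrix.cons_val_zero, Matrix.cons_val_one, Matrix.cons_val] at h3
      intro h4
      apply h3
      linear_combination h4
  choose α hα' using hα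
  have hstep : ∀ t, α (t + 1) = -α t := by
    intro t
    have h3 := hu (a 0) (a 1) (c t) (c (t + 1)) (ha 0 1 (by decide)) (hcH t)
    rw [hα', hα', hα', hα'] at h3
    have n1 : c t ≠ c (t + 1) := fun h => h1 (by simpa using (hc h).symm)
    have h4 := hx.two (a 0) (a 1) (c t) (c (t + 1)) (fun h => absurd (hainj h) (by decide)) n1
    have h5 : (α t + α (t + 1)) *
        (x (a 0) (c t) * x (a 1) (c (t + 1)) - x (a 0) (c (t + 1)) * x (a 1) (c t)) = 0 := by
      linear_combination h3
    rcases mul_eq_zero.1 h5 with h6 | h6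
    · linear_combination h6
    · exact absurd h6 h4
  have hpow : ∀ (j : ℕ) (hj : j < m + 3), α ⟨j, hj⟩ = (-1) ^ j * α 0 := by
    intro j
    induction j with
    | zero =>
      intro hj
      rw [pow_zero, one_mul]
      rfl
    | succ j ih =>
      intro hj
      have e : (⟨j + 1, hj⟩ : Fin (m + 3)) = ⟨j, by omega⟩ + 1 := by
        apply Fin.ext
        rw [Fin.val_add]
        simp only [Fin.val_one]
        rw [Nat.mod_eq_of_lt hj]
      rw [e, hstep, ih, pow_succ]
      ring
  have h0 : α 0 = 0 := by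
    have e : (0 : Fin (m + 3)) = ⟨m + 2, by omega⟩ + 1 := by
      apply Fin.ext
      rw [Fin.val_add]
      simp only [Fin.val_one, Fin.val_zero]
      rw [show m + 2 + 1 = m + 3 by ring, Nat.mod_self]
    have h3 : α 0 = (-1) ^ (m + 3) * α 0 := by
      conv_lhs => rw [e, hstep, hpow]
      have e2 : ((-1 : L)) ^ (m + 3) = (-1) ^ (m + 2) * (-1) := pow_succ _ _
      rw [e2]
      ring
    rw [hodd.neg_one_pow] at h3
    have h4 : 2 * α 0 = 0 := by linear_combination h3
    rcases mul_eq_zero.1 h4 with h5 | h5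
    · exact absurd h5 h20
    · exact h5
  intro s t
  rw [hα']
  have h3 := hpow t.val t.isLt
  rw [h0, mul_zero] at h3
  have h4 : α t = 0 := h3
  rw [h4, zero_mul]

end Pool.Agent.K1H52.KA
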